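import Pool.Agent.AEC.StmtsS

/-!
# Squad AEC, row S_WGR: the Gaifman graph of the structures `W τ T`
-/

set_option autoImplicit false

open FirstOrder FirstOrder.Language Cardinal

universe u

noncomputable section

namespace Pool.Agent.AEC.S.H79

open Pool.Agent.AEC Pool.Agent.AEC.S

variable {L : FirstOrder.Language.{u, u}} {κ : Cardinal.{u}} {τ : Tpl L κ} {T : Type u}

theorem tag_none {x : W τ T} (h : x.tag = none) : x.pr ∉ τ.A := by
  rcases x with x | x
  · exact x.2
  · exact absurd h (by simp [W.tag])

theorem tag_some {x : W τ T} {t : T} (h : x.tag = some t) : x.pr ∈ τ.A := by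
  rcases x with x | x
  · exact absurd h (by simp [W.tag])
  · exact x.2.2

/-- the copy of `P` with the tag `t` -/
def lift (t : T) (p : τ.P) : W τ T := by
  classical
  exact if h : p ∈ τ.A then W.hi t ⟨p, h⟩ else W.lo ⟨p, h⟩

theorem lift_hi (t : T) (a : τ.A) : lift t a.1 = W.hi t a := by
  unfold lift
  rw [dif_pos a.2]

theorem lift_mem (t : T) {p : τ.P} (h : p ∈ τ.A) : lift t p = W.hi t ⟨p, h⟩ := by
  unfold lift
  rw [dif_pos h]

theorem lift_not (t : T) {p : τ.P} (h : p ∉ τ.A) : lift t p = (W.lo ⟨p, h⟩ : W τ T) := by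
  unfold lift
  rw [dif_neg h]

theorem pr_lift (t : T) (p : τ.P) : (lift t p : W τ T).pr = p := by
  by_cases h : p ∈ τ.A
  · rw [lift_mem t h]; rfl
  · rw [lift_not t h]; rfl

theorem tag_lift (t : T) (p : τ.P) {t' : T} (h : (lift t p : W τ T).tag = some t') : t' = t := by
  by_cases h1 : p ∈ τ.A
  · rw [lift_mem t h1] at h
    exact (Option.some.inj h).symm
  · rw [lift_not t h1] at h
    exact absurd h (by simp [W.tag, W.lo])

theorem tag_lift_mem (t : T) {p : τ.P} (h : p ∈ τ.A) : (lift t p : W τ T).tag = some t := by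
  rw [lift_mem t h]; rfl

/-- elements with the tag `t` or without tag are in the copy `t` -/
theorem eq_lift (t : T) {x : W τ T} (h : x.tag = none ∨ x.tag = some t) : lift t x.pr = x := by
  rcases x with x | ⟨t', a⟩
  · exact lift_not t x.2
  · rcases h with h | h
    · exact absurd h (by simp [W.tag])
    · have : t' = t := Option.some.inj h
      subst this
      exact lift_hi t' a

theorem rel_lift [L.IsRelational] (t : T) {n : ℕ} {R : L.Relations n} {v : Fin n → τ.P}
    (h : Structure.RelMap R v) : Structure.RelMap R (fun i => (lift t (v i) : W τ T)) := by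
  refine ⟨fun i j t₁ t₂ h1 h2 => ?_, ?_⟩
  · rw [tag_lift t _ h1, tag_lift t _ h2]
  · have : (fun i => (lift t (v i) : W τ T).pr) = v := funext fun i => pr_lift t (v i)
    rw [this]
    exact h

theorem adj_lift [L.IsRelational] (t : T) {p q : τ.P} (h : adj L p q) :
    adj L (lift t p : W τ T) (lift t q) := by
  obtain ⟨hne, n, R, v, hR, ⟨i, hi⟩, j, hj⟩ := h
  refine ⟨fun h1 => hne ?_, n, R, fun i => lift t (v i), rel_lift t hR, ⟨i, congrArg (lift t) hi⟩, j,
    congrArg (lift t) hj⟩
  have h2 := congrArg W.pr h1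
  rwa [pr_lift, pr_lift] at h2

/-- the neighbours of an element with the tag `t` -/
theorem adj_tag [L.IsRelational] {t : T} {x y : W τ T} (h : adj L x y) (hx : x.tag = some t) :
    y.tag = some t ∨ y.tag = none ∧ y.pr ∈ τ.B := by
  obtain ⟨-, n, R, v, hR, ⟨i, rfl⟩, j, rfl⟩ := h
  have h1 := τ.loc n R (fun i => (v i).pr) hR.2 ⟨i, tag_some hx⟩ j
  rcases h2 : (v j).tag with _ | t'
  · exact Or.inr ⟨rfl, h1.resolve_left (tag_none h2)⟩
  · exact Or.inl (by rw [hR.1 j i t' t h2 hx])

theorem adj_symm {N : Type u} [L.Structure N] {x y : N} (h : adj L x y) : adj L y x := by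
  obtain ⟨h1, n, R, v, hR, h2, h3⟩ := h
  exact ⟨h1.symm, n, R, v, hR, h3, h2⟩

/-- the copies are small -/
theorem card_le (t : T) (D : Set (W τ T)) (h : ∀ x ∈ D, x.tag = none ∨ x.tag = some t) :
    #D ≤ κ := by
  refine le_trans (Cardinal.mk_le_of_injective (f := fun x : D => x.1.pr) ?_) τ.card
  intro x y hxy
  have h1 : x.1 = y.1 := by
    rw [← eq_lift t (h x.1 x.2), ← eq_lift t (h y.1 y.2)]
    exact congrArg (lift t) hxy
  exact Subtype.ext h1

theorem s_wgr : WgrStmt.{u} := by
  intro L _ κ τ T hκ hT
  have hT0 : Nonempty T := by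
    rw [← Cardinal.mk_ne_zero_iff]
    intro h
    rw [h] at hT
    exact not_lt_bot hT
  obtain ⟨t₀⟩ := hT0
  have h1 : ∀ x : W τ T, x ∈ Sv L κ (W τ T) ↔ x.tag = none ∧ x.pr ∈ τ.B := by
    intro x
    constructor
    · intro hx
      by_contra hc
      have hx' : κ < #{y : W τ T // adj L x y} := hx
      refine absurd hx' (not_lt.mpr ?_)
      rcases hx1 : x.tag with _ | t
      · refine card_le t₀ {y : W τ T | adj L x y} fun y hy => ?_
        rcases hy1 : y.tag with _ | t
        · exact Or.inl rfl
        · exfalso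
          rcases adj_tag (adj_symm hy) hy1 with h | h
          · rw [hx1] at h; exact absurd h (by simp)
          · exact hc h
      · refine card_le t {y : W τ T | adj L x y} fun y hy => ?_
        rcases adj_tag hy hx1 with h | h
        · exact Or.inr h
        · exact Or.inl h.1
    · rintro ⟨hx1, hx2⟩
      obtain ⟨a, ha, hadj⟩ := τ.nbr x.pr hx2
      refine lt_of_lt_of_le hT ?_
      refine Cardinal.mk_le_of_injective
        (f := fun t : T => (⟨lift t a, ?_⟩ : {y : W τ T // adj L x y})) ?_
      · have h := adj_lift (T := T) t hadj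
        rw [eq_lift t (Or.inl hx1)] at h
        exact h
      · intro t t' h
        have h2 : (lift t a : W τ T) = lift t' a := congrArg Subtype.val h
        have h3 := congrArg W.tag h2
        rw [tag_lift_mem t ha, tag_lift_mem t' ha] at h3
        exact Option.some.inj h3
  have hnot : ∀ {x : W τ T} {t : T}, x.tag = some t → x ∉ Sv L κ (W τ T) := by
    intro x t hx h
    rw [h1, hx] at h
    exact absurd h.1 (by simp)
  have h2 : ∀ (t : T) (a : τ.A), cmp L (Sv L κ (W τ T)) (W.hi t a) = {x | x.tag = some t} := by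
    intro t a
    ext x
    constructor
    · intro hx
      have hx' : Relation.ReflTransGen (fun a b => adj L a b ∧ b ∉ Sv L κ (W τ T)) (W.hi t a) x := hx
      induction hx' with
      | refl => rfl
      | tail _ hbc ih =>
        rename_i b c hb
        have hb' : b.tag = some t := ih hb
        rcases adj_tag hbc.1 hb' with h | h
        · exact h
        · exact absurd ((h1 c).mpr h) hbc.2
    · intro hx
      have hx' : x.tag = some t := hx
      have hA := tag_some hx'
      have hcon := τ.conn a.1 a.2 x.pr hA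
      have h3 : Relation.ReflTransGen (fun a b => adj L a b ∧ b ∉ Sv L κ (W τ T))
          (lift t a.1) (lift t x.pr) := by
        have hcon' : Relation.ReflTransGen (fun a b => adj L a b ∧ b ∉ τ.Aᶜ) a.1 x.pr := hcon
        have h4 : (fun a b : τ.P => adj L a b ∧ b ∉ τ.Aᶜ) ≤
            Function.onFun (fun a b => adj L a b ∧ b ∉ Sv L κ (W τ T)) (lift t) := by
          rintro p q ⟨hpq, hq⟩
          have hq' : q ∈ τ.A := not_not.mp hq
          exact ⟨adj_lift t hpq, hnot (tag_lift_mem t hq')⟩
        exact Relation.ReflTransGen.lift (lift t) h4 _ _ hcon'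
      rw [lift_hi, eq_lift t (Or.inr hx')] at h3
      exact h3
  refine ⟨h1, h2, fun x hx => ?_⟩
  rcases hx1 : x.tag with _ | t
  · refine card_le t₀ _ fun y hy => ?_
    have hy' : Relation.ReflTransGen (fun a b => adj L a b ∧ b ∉ Sv L κ (W τ T)) x y := hy
    have key : y.tag = none ∧ y ∉ Sv L κ (W τ T) := by
      induction hy' with
      | refl => exact ⟨hx1, hx⟩
      | tail _ hbc ih =>
        rename_i b c hb
        obtain ⟨hb1, hb2⟩ := ih hb
        refine ⟨?_, hbc.2⟩
        rcases hc : c.tag with _ | t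
        · rfl
        · exfalso
          rcases adj_tag (adj_symm hbc.1) hc with h | h
          · rw [hb1] at h; exact absurd h (by simp)
          · exact hb2 ((h1 b).mpr h)
    exact Or.inl key.1
  · have h3 : x = W.hi t ⟨x.pr, tag_some hx1⟩ := by
      rw [← lift_mem t (tag_some hx1), eq_lift t (Or.inr hx1)]
    rw [h3, h2]
    exact card_le t _ fun y hy => Or.inr hy

end Pool.Agent.AEC.S.H79
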